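import Pool.Agent.Helper26_BSN.Stmts

/-!
# BSN, module FF: freshness of the families of derivations
-/

namespace Pool.Agent.BSN.H70

open Filter Cardinal Pool.Agent.BSig Pool.Agent.BSN

variable {τ : Tower}

theorem ff (hF : FreshS1 τ) (hM : MonoStmt τ) (hR : RepBasics τ) : FamFresh τ := by
  intro φ hφ k t
  obtain ⟨-, -, -, -, hcfl, -, -⟩ := hR
  have hD : IsDelta0 (fun v : Fin 3 → MMt τ => ¬ Cfl (v 2) (v 2) ∧
      Der φ (v 1) (k : MMt τ) (v 0) (v 2) t) :=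
    (IsDelta0.cfl (IsTerm.var 2) (IsTerm.var 2)).not.and
      (hφ.dern (IsTerm.var 1) (IsTerm.param _) (IsTerm.var 0) (IsTerm.var 2) (IsTerm.param t))
  have key := hF _ hD (fun m m' α α' F hm hα h =>
    ⟨h.1, (hM φ hφ).1 α α' k k m m' F t hα le_rfl hm h.2⟩) k
  have hset : Fam φ k t = {S : Finset (MMt τ × Bool) | S.card ≤ k ∧ ∃ F, Rep F S ∧
      ∀ m : ℕ, ∃ α, (fun v : Fin 3 → MMt τ => ¬ Cfl (v 2) (v 2) ∧
      Der φ (v 1) (k : MMt τ) (v 0) (v 2) t) ![(m : MMt τ), α, F]} := by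
    ext S
    constructor
    · rintro ⟨h1, h2, F, h3, h4⟩
      refine ⟨h1, F, h3, fun m => ?_⟩
      obtain ⟨α, hα⟩ := h4 m
      refine ⟨α, ?_, hα⟩
      change ¬ Cfl F F
      rw [hcfl, ← h3]
      exact h2
    · rintro ⟨h1, F, h3, h4⟩
      refine ⟨h1, ?_, F, h3, fun m => ?_⟩
      · obtain ⟨α, hα, -⟩ := h4 0
        have h5 : ¬ Cfl F F := hα
        rw [hcfl, ← h3] at h5
        exact h5
      · obtain ⟨α, -, hα⟩ := h4 m
        exact ⟨α, hα⟩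
  rw [hset]
  exact key

end Pool.Agent.BSN.H70
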