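import Pool.Agent.Helper26_BSN.Stmts

/-!
# BSN, module QYS: comparison of `QFam` and `QY`
-/

namespace Pool.Agent.BSN.H70

open Filter Cardinal Pool.Agent.BSig Pool.Agent.BSN

variable {τ : Tower}

theorem qys (hF : FrcStmt τ) (hM : MonoStmt τ) (hS : SciStmt τ) (hR : RepBasics τ) :
    QYStmt τ := by
  classical
  intro φ hφ k q
  obtain ⟨hsurj, hinj, hex, huniq, hcfl, hcrd, hcrdm⟩ := hR
  have hlit : ∀ (F : MMt τ) (p : MMt τ × Bool), Mem (lit p) F ↔ p ∈ LS F := fun F p => Iff.rfl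
  constructor
  · rintro ⟨R, R', t, t', h1, h2, h3, h4, h5, h6, h7, h8⟩
    obtain ⟨r, hr⟩ := hex R
    obtain ⟨r', hr'⟩ := hex R'
    obtain ⟨u, hu⟩ := hex q
    have f1 := (hF φ hφ k R r t hr).2 h5
    have f2 := (hF φ hφ k R' r' t' hr').2 h6
    have hD : IsDelta0 (fun v : Fin 2 → MMt τ => Frc φ (v 1) (k : MMt τ) (v 0) r t ∧
        Frc φ (v 1) (k : MMt τ) (v 0) r' t') :=
      (IsDelta0.frc hφ (IsTerm.var 1) (IsTerm.param _) (IsTerm.var 0) (IsTerm.param r)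
        (IsTerm.param t)).and
      (IsDelta0.frc hφ (IsTerm.var 1) (IsTerm.param _) (IsTerm.var 0) (IsTerm.param r')
        (IsTerm.param t'))
    obtain ⟨y, α, hy, hα1, hα2⟩ := (hS _ hD (fun m m' α α' hm hα h =>
      ⟨(hM φ hφ).2 α α' k k m m' r t hα le_rfl hm h.1,
        (hM φ hφ).2 α α' k k m m' r' t' hα le_rfl hm h.2⟩)).1 (fun m => by
        obtain ⟨α, hα⟩ := f1 m
        obtain ⟨β, hβ⟩ := f2 m
        exact ⟨α + β, (hM φ hφ).2 α (α + β) k k m m r t (le_add_right' α β) le_rfl le_rfl hα,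
          (hM φ hφ).2 β (α + β) k k m m r' t' (le_add_left' β α) le_rfl le_rfl hβ⟩)
    refine ⟨y, hy, α, r, r', t, t', u, (hcrd r k).2 ⟨R, hr, h1⟩, (hcrd r' k).2 ⟨R', hr', h2⟩,
      ?_, ?_, hα1, hα2, h7, ?_, hu⟩
    · rw [hcfl, ← hr]; exact h3
    · rw [hcfl, ← hr']; exact h4
    · intro x _
      obtain ⟨p, rfl⟩ := hsurj x
      rw [hlit, hlit, hlit, ← hu, ← hr, ← hr', h8]
      rfl
  · rintro ⟨y, hy, α, r, r', t, t', u, c1, c2, c3, c4, f1, f2, h7, h8, hu⟩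
    obtain ⟨R, hr, h1⟩ := (hcrd r k).1 c1
    obtain ⟨R', hr', h2⟩ := (hcrd r' k).1 c2
    rw [hcfl, ← hr] at c3
    rw [hcfl, ← hr'] at c4
    refine ⟨R, R', t, t', h1, h2, c3, c4, ?_, ?_, h7, ?_⟩
    · exact (hF φ hφ k R r t hr).1 fun m =>
        ⟨α, (hM φ hφ).2 α α k k y m r t le_rfl le_rfl (hy m).le f1⟩
    · exact (hF φ hφ k R' r' t' hr').1 fun m =>
        ⟨α, (hM φ hφ).2 α α k k y m r' t' le_rfl le_rfl (hy m).le f2⟩
    · ext p
      rw [hu, hr, hr']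
      change Mem (lit p) u ↔ (Mem (lit p) r ∨ Mem (lit p) r')
      constructor
      · intro h
        refine (h8 (lit p) ?_).1 h
        exact (mem_lt h).le.trans ((le_add_right' u r).trans (le_add_right' (u + r) r'))
      · rintro (h | h)
        · refine (h8 (lit p) ?_).2 (Or.inl h)
          exact (mem_lt h).le.trans ((le_add_left' r u).trans (le_add_right' (u + r) r'))
        · refine (h8 (lit p) ?_).2 (Or.inr h)
          exact (mem_lt h).le.trans (le_add_left' r' (u + r))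

end Pool.Agent.BSN.H70
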